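import Pool.Agent.Lib.lead.CXNP
import Pool.Agent.H.MP_c4ab36_lc.B

namespace Pool.Agent.Results.MP_c4ab36_lc.InNP
open Pool.Agent.Lib.CX Pool.Agent.H.MP_c4ab36_lc

/-- subpower membership: the input `(n, [a_1, …, a_k], b)` lists tuples of `S^n` by the codes of their entries -/
def SMP {S : Type} [Semigroup S] (c : S → ℕ) (I : ℕ × List (List ℕ) × List ℕ) : Prop :=
  ∃ (a : List (Fin I.1 → S)) (b : Fin I.1 → S), I.2.1 = a.map (fun x => List.ofFn (c ∘ x)) ∧
    I.2.2 = List.ofFn (c ∘ b) ∧ b ∈ Subsemigroup.closure {x | x ∈ a}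

def mulN (tb : List ((ℕ × ℕ) × ℕ)) (p : ℕ × ℕ) : ℕ := ((tb.filter fun t => decide (t.1 = p)).map Prod.snd).headD 0

def Chk (tb : List ((ℕ × ℕ) × ℕ)) (gs : List (List ℕ)) (o : List ℕ) (l : List (List ℕ)) : Prop :=
  ∀ i < l.length, l.getD i [] ∈ gs ∨ l.getD i [] = o ∨
    ∃ y ∈ l.drop (i + 1), ∃ z ∈ l.drop (i + 1), l.getD i [] = List.zipWith (fun a b => mulN tb (a, b)) y z

theorem chk_cons (tb gs o x l) : Chk tb gs o (x :: l) ↔
    (x ∈ gs ∨ x = o ∨ ∃ y ∈ l, ∃ z ∈ l, x = List.zipWith (fun a b => mulN tb (a, b)) y z) ∧ Chk tb gs o l := by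
  rw [Chk, List.length_cons, Nat.forall_lt_succ_left]; rfl

theorem PB_bnd {α : Type} [Enc α] (k m H : ℕ) {n : α → ℕ} (hn : PB n) : PB fun a => bnd k m (n a) H := by
  induction H with
  | zero => exact PB.const 1
  | succ H ih => simp only [bnd, nxt]; fun_prop

theorem ex_map {α β : Type} (F : α → β) (l : List β) (h : ∀ g ∈ l, ∃ x, g = F x) : ∃ a : List α, l = a.map F := by
  induction l with
  | nil => exact ⟨[], rfl⟩
  | cons g l ih =>
    obtain ⟨a, rfl⟩ := ih fun g hg => h g (List.mem_cons_of_mem _ hg)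
    obtain ⟨x, rfl⟩ := h g List.mem_cons_self
    exact ⟨x :: a, rfl⟩

theorem result {S : Type} [Semigroup S] [Finite S] (hS : ∀ a : S, ∃ x, a = a * x * a ∧ a * x = x * a)
    (c : S → ℕ) (hc : Function.Injective c) : InNP (SMP c) := by
  classical
  have := Fintype.ofFinite S
  have : Fintype (WithOne S) := inferInstanceAs (Fintype (Option S))
  obtain ⟨m, hm⟩ := expo (M := WithOne S) fun a => by
    induction a using WithOne.recOneCoe with
    | one => exact ⟨1, by simp⟩
    | coe a => obtain ⟨x, h1, h2⟩ := hS a; exact ⟨x, by exact_mod_cast h1, by exact_mod_cast h2⟩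
  let cd : WithOne S → ℕ := fun x => WithOne.recOneCoe 0 (fun s => c s + 1) x
  have cd1 : cd 1 = 0 := rfl
  have cd2 : ∀ s : S, cd s = c s + 1 := fun _ => rfl
  have cdi : Function.Injective cd := fun x y h => by
    induction x using WithOne.recOneCoe <;> induction y using WithOne.recOneCoe <;> simp [cd1, cd2] at h ⊢
    exact hc h
  obtain ⟨tb, htb⟩ : ∃ tb, ∀ x y, mulN tb (cd x, cd y) = cd (x * y) := by
    refine ⟨(Finset.univ : Finset (WithOne S × WithOne S)).toList.map fun p => ((cd p.1, cd p.2), cd (p.1 * p.2)),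
      fun x y => ?_⟩
    unfold mulN
    generalize hl : List.filter _ _ = l
    have h1 : ((cd x, cd y), cd (x * y)) ∈ l := by
      rw [← hl]; simp only [List.mem_filter, List.mem_map, decide_true, and_true]; exact ⟨(x, y), by simp, rfl⟩
    obtain _ | ⟨t, l⟩ := l
    · simp at h1
    · have h2 : t ∈ t :: l := List.mem_cons_self
      rw [← hl] at h2
      simp only [List.mem_filter, List.mem_map, decide_eq_true_eq] at h2
      obtain ⟨⟨p, _, rfl⟩, h3⟩ := h2
      simp only [Prod.mk.injEq] at h3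
      simp [cdi h3.1, cdi h3.2]
  obtain ⟨cs, hcs⟩ : ∃ cs : List ℕ, ∀ x, x ∈ cs ↔ ∃ s, x = c s :=
    ⟨(Finset.univ : Finset S).toList.map c, fun x => by simp [eq_comm]⟩
  obtain ⟨D, hD⟩ : ∃ D, ∀ x, size (cd x) ≤ D := ⟨_, fun x => Finset.le_sup (f := fun x => size (cd x)) (Finset.mem_univ x)⟩
  have e1 : ∀ n (x : Fin n → S), (List.ofFn (c ∘ x)).map (· + 1) = List.ofFn (cd ∘ fun i => (x i : WithOne S)) :=
    fun n x => by rw [List.map_ofFn]; rfl
  have e2 : ∀ n (x : Fin n → S), (List.ofFn (c ∘ x)).map (fun _ => 0) = List.ofFn (cd ∘ (1 : Fin n → WithOne S)) :=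
    fun n x => by rw [List.map_ofFn]; rfl
  have e3 : ∀ n (x y : Fin n → WithOne S), List.zipWith (fun a b => mulN tb (a, b)) (List.ofFn (cd ∘ x))
      (List.ofFn (cd ∘ y)) = List.ofFn (cd ∘ (x * y)) := fun n x y => by
    apply List.ext_getElem <;> simp [htb]
  have e4 : ∀ n (g : List ℕ), g.length = n → (∀ x ∈ g, x ∈ cs) → ∃ x : Fin n → S, g = List.ofFn (c ∘ x) := by
    rintro _ g rfl h
    choose x hx using fun i : Fin g.length => (hcs _).1 (h g[i] (List.getElem_mem _))
    exact ⟨x, List.ext_getElem (by simp) fun i h1 _ => by simpa using hx ⟨i, h1⟩⟩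
  refine InNP.of_cert' (fun I (l : List (List ℕ)) => I.2.1 ≠ [] ∧ I.2.2.length = I.1 ∧
      (∀ g ∈ I.2.1, g.length = I.1 ∧ ∀ x ∈ g, x ∈ cs) ∧ (∀ x ∈ I.2.2, x ∈ cs) ∧ I.2.2.map (· + 1) ∈ l ∧
      Chk tb (I.2.1.map (·.map (· + 1))) (I.2.2.map fun _ => 0) l) (i := fun _ _ => by unfold Chk; infer_instance)
    (fun I => bnd (Fintype.card (WithOne S)) m I.2.2.length (Fintype.card (WithOne S) + 1) *
      (I.2.2.length * (D + 1) + 2 + 1) + 2) (by unfold Chk mulN; fun_prop)
    (PB.add (PB.mul (PB_bnd _ _ _ (by fun_prop)) (by fun_prop)) (by fun_prop)) ?_ ?_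
  · rintro ⟨n, gs, b⟩ l ⟨h1, h2, h3, h4, h5, h6⟩
    obtain ⟨b, rfl⟩ := e4 n b h2 h4
    obtain ⟨a, rfl⟩ := ex_map (fun x : Fin n → S => List.ofFn (c ∘ x)) gs fun g hg => e4 n g (h3 g hg).1 (h3 g hg).2
    refine ⟨a, b, rfl, rfl, ?_⟩
    have key : ∀ y ∈ l, ∃ x : Fin n → WithOne S, y = List.ofFn (cd ∘ x) ∧
        (x = 1 ∨ ∃ z ∈ Subsemigroup.closure {x | x ∈ a}, x = fun i => (z i : WithOne S)) := by
      clear h5
      induction l with
      | nil => simp
      | cons y l ih =>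
        rw [chk_cons] at h6
        have ih := ih h6.2
        rw [List.forall_mem_cons]
        refine ⟨?_, ih⟩
        rcases h6.1 with h | h | ⟨u, hu, v, hv, h⟩
        · simp only [List.map_map, List.mem_map, Function.comp_apply, e1] at h
          obtain ⟨x, hx, rfl⟩ := h
          exact ⟨_, rfl, Or.inr ⟨x, Subsemigroup.subset_closure hx, rfl⟩⟩
        · exact ⟨1, h.trans (e2 _ _), Or.inl rfl⟩
        · obtain ⟨u, rfl, hu2⟩ := ih u hu
          obtain ⟨v, rfl, hv2⟩ := ih v hv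
          replace hu := hu2
          replace hv := hv2
          refine ⟨u * v, h.trans (e3 _ _ _), ?_⟩
          rcases hu with rfl | ⟨u, hu, rfl⟩
          · simpa using hv
          rcases hv with rfl | ⟨v, hv, rfl⟩
          · exact Or.inr ⟨u, hu, mul_one _⟩
          · exact Or.inr ⟨u * v, mul_mem hu hv, rfl⟩
    obtain ⟨x, hx, hx'⟩ := key _ h5
    simp only [e1, List.ofFn_inj] at hx
    obtain rfl := cdi.comp_left hx
    rcases hx' with h | ⟨z, hz, h⟩
    · obtain _ | ⟨x, a⟩ := a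
      · exact (h1 rfl).elim
      · obtain rfl : b = x := funext fun i => (WithOne.coe_ne_one (congrFun h i)).elim
        exact Subsemigroup.subset_closure List.mem_cons_self
    · obtain rfl : b = z := funext fun i => WithOne.coe_inj.1 (congrFun h i)
      exact hz
  · rintro ⟨n, gs, b0⟩ ⟨a, b, h1, h2, h⟩
    dsimp only at a b h h1 h2 ⊢
    subst h1 h2
    have h1 : (fun i => (b i : WithOne S)) ∈ Submonoid.closure {x : Fin n → WithOne S | ∃ z ∈ a, x = fun i => (z i : WithOne S)} := by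
      induction h using Subsemigroup.closure_induction with
      | mem x hx => exact Submonoid.subset_closure ⟨x, hx, rfl⟩
      | mul x y _ _ a b => exact mul_mem a b
    obtain ⟨l, l1, l2, l3⟩ := short hm h1
    refine ⟨l.map fun x => List.ofFn (cd ∘ x), ?_, ?_, by simp, ?_, ?_, ?_, ?_⟩
    · refine (size_list_le (B := n * (D + 1) + 2) fun x hx => ?_).trans ?_
      · obtain ⟨x, _, rfl⟩ := List.mem_map.1 hx
        refine (size_list_le (B := D) fun y hy => ?_).trans (by simp)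
        obtain ⟨i, rfl⟩ := List.mem_ofFn.1 hy
        exact hD _
      · simp only [List.length_map, List.length_ofFn, Fintype.card_fin] at l2 ⊢
        gcongr
    · rintro h'
      obtain rfl : a = [] := by simpa using h'
      have e : {x : Fin n → S | x ∈ ([] : List _)} = ∅ := by simp
      rw [e, Subsemigroup.closure_empty] at h
      exact h
    · intro g hg
      obtain ⟨x, _, rfl⟩ := List.mem_map.1 hg
      simp [hcs, List.mem_ofFn]
    · simp [hcs, List.mem_ofFn]
    · rw [e1]; exact List.mem_map.2 ⟨_, l3, rfl⟩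
    · clear l2 l3
      induction l1 with
      | nil => simp [Chk]
      | gen hx _ ih =>
        obtain ⟨z, hz, rfl⟩ := hx
        rw [List.map_cons, chk_cons]
        exact ⟨Or.inl (by rw [← e1]; exact List.mem_map.2 ⟨_, List.mem_map.2 ⟨z, hz, rfl⟩, rfl⟩), ih⟩
      | one _ ih => rw [List.map_cons, chk_cons]; exact ⟨Or.inr (Or.inl (e2 _ _).symm), ih⟩
      | mul hx hy _ ih =>
        rw [List.map_cons, chk_cons]
        exact ⟨Or.inr (Or.inr ⟨_, List.mem_map.2 ⟨_, hx, rfl⟩, _, List.mem_map.2 ⟨_, hy, rfl⟩, (e3 _ _ _).symm⟩), ih⟩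

end Pool.Agent.Results.MP_c4ab36_lc.InNP
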